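import Mathlib
import Pool.Agent.LeoC.CountStmts
import Pool.Agent.LeoK.StrStmts
import Pool.Agent.Helper68_LeoC.TowO

/-!
# Module statements of squad LEOT: totally real fields of odd degree `3 ^ a`

Paper: PAPER_LEOT.md.
-/

set_option autoImplicit false

open NumberField NumberField.InfinitePlace NumberField.mixedEmbedding IsDedekindDomain WithZero
  Module Filter
open Pool.Agent.Helper85_Leo Pool.Agent.Leo3 Pool.Agent.LeoK Pool.Agent.LeoG Pool.Agent.LeoC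
open Pool.Agent.LeoC.H68 (Cub)

open scoped Classical

namespace Pool.Agent.LeoT

section defs

variable {L : Type} [Field L] [NumberField L]

/-- The valuation of `z` is divisible by 3 at the primes which do not lie above `3` or `l`. -/
def ValCubeQ (l : ℕ) (z : L) : Prop :=
  ∀ q : HeightOneSpectrum (𝓞 L), (3 : 𝓞 L) ∉ q.asIdeal → (l : 𝓞 L) ∉ q.asIdeal →
    ∃ x : ℤᵐ⁰, q.valuation L z = x ^ 3

end defs

/-- Elements which are locally cubes at 3 and with valuations divisible by 3 at the primes not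
above `3 l` have valuations divisible by 3 at the primes above `l`, too. -/
def PrimQ (k : Type) [Field k] [NumberField k] (l : ℕ) : Prop :=
  ∀ z : k, z ≠ 0 → ValCubeQ l z → LocCube z → ValCube3 z

/-- There is at most one prime above `l`. -/
def OneP (F : Type) [Field F] [NumberField F] (l : ℕ) : Prop :=
  ∀ P Q : HeightOneSpectrum (𝓞 F), (l : 𝓞 F) ∈ P.asIdeal → (l : 𝓞 F) ∈ Q.asIdeal → P = Q

/-- `E / K` is unramified at the primes not above `3 l`. -/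
def UnrOutQ (l : ℕ) (K E : Type) [Field K] [NumberField K] [Field E] [NumberField E]
    [Algebra K E] : Prop :=
  ∀ (P : Ideal (𝓞 E)) [P.IsPrime], P ≠ ⊥ → (3 : 𝓞 E) ∉ P → (l : 𝓞 E) ∉ P →
    Algebra.IsUnramifiedAt (𝓞 K) P

/-! ## Algebra -/

/-- UPQ: going up in a cyclic cubic extension with one tame prime. -/
def UpqStmt : Prop :=
  ∀ (k F E : Type) [Field k] [NumberField k] [Field F] [NumberField F] [Field E] [NumberField E]
    [Algebra k F] [Algebra F E] [IsGalois F E] (l : ℕ), finrank k F = 2 → finrank F E = 3 →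
    UnrOutQ l F E → OneP F l → PrimQ k l → NoMu F → W3 F → NoMu E ∧ W3 E

/-- BAS: the base fields (layers of the cyclotomic `ℤ₃`-extension) and the tame primes. -/
def BasStmt : Prop :=
  ∀ a : ℕ, ∃ (k : Type) (_ : Field k) (_ : NumberField k),
    finrank ℚ k = 3 ^ a ∧ IsTotallyReal k ∧ NoMu k ∧ W3 k ∧
    ∀ n : ℕ, ∃ l : ℕ, n < l ∧ l.Prime ∧ OneP k l ∧ PrimQ k l ∧
      ∃ q : HeightOneSpectrum (𝓞 k), (l : 𝓞 k) ∈ q.asIdeal ∧ Ideal.absNorm q.asIdeal % 3 = 2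

/-- INR: `q` is inert in `F = k(√(3m))` if `-m` is a square modulo `q`. -/
def InrStmt : Prop :=
  ∀ (k F : Type) [Field k] [NumberField k] [Field F] [NumberField F] [Algebra k F] (m : 𝓞 k)
    (r : F) (l : ℕ) (q : HeightOneSpectrum (𝓞 k)) (x : 𝓞 k), finrank k F = 2 →
    r ^ 2 = algebraMap k F (3 * (m : k)) → l.Prime → 3 < l → OneP k l → (l : 𝓞 k) ∈ q.asIdeal →
    Ideal.absNorm q.asIdeal % 3 = 2 → x ∉ q.asIdeal → x ^ 2 + m ∈ q.asIdeal → OneP F l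

/-- PAQ: the parameters (class group argument in `k(√-m)`, `q` splits). -/
def PaqStmt : Prop :=
  ∀ (k : Type) [Field k] [NumberField k] (m : 𝓞 k) (l : ℕ) (q : HeightOneSpectrum (𝓞 k))
    (x : 𝓞 k), l.Prime → 3 < l → (l : 𝓞 k) ∈ q.asIdeal → x ∉ q.asIdeal →
    x ^ 2 + m ∈ q.asIdeal → (∀ y : k, y ^ 2 ≠ -(m : k)) →
    ∃ (t s : k) (j : ℕ), IsIntegral ℤ ((l : k) ^ j * t) ∧ t ^ 2 + (m : k) * s ^ 2 = 4 ∧ s ≠ 0 ∧
      ∀ y : k, y ^ 3 - 3 * y ≠ t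

/-- EXQ: the compositum `E = K F`. -/
def ExqStmt : Prop :=
  ∀ (k K F : Type) [Field k] [NumberField k] [Field K] [NumberField K] [Field F]
    [NumberField F] [Algebra k K] [Algebra k F] (m : 𝓞 k) (t s : k) (θ : K) (r : F) (l j : ℕ),
    Cub (m : k) t s θ → IsIntegral ℤ ((l : k) ^ j * t) → l ≠ 0 → finrank k F = 2 →
    r ^ 2 = algebraMap k F (3 * (m : k)) → (∀ x : k, x ^ 2 ≠ 3 * (m : k)) →
    ∃ (E : Type) (_ : Field E) (_ : NumberField E) (_ : Algebra K E) (_ : Algebra F E),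
      finrank K E = 2 ∧ IsGalois F E ∧ finrank F E = 3 ∧ UnrOutQ l F E

/-- TAM: the exponents of the different at tame primes. -/
def TamStmt : Prop :=
  ∀ (k K : Type) [Field k] [NumberField k] [Field K] [NumberField K] [Algebra k K]
    (p : HeightOneSpectrum (𝓞 k)) (P Q : Ideal (𝓞 K)), P ≠ ⊤ → IsCoprime P Q →
    P * Q = Ideal.map (algebraMap (𝓞 k) (𝓞 K)) p.asIdeal →
    (∀ i : ℕ, 1 ≤ i → i ≤ finrank k K → (i : 𝓞 k) ∉ p.asIdeal) →
    ¬ P ∣ differentIdeal (𝓞 k) (𝓞 K)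

/-- DSQ: the discriminant of `K`. -/
def DsqStmt : Prop :=
  ∀ (k K : Type) [Field k] [NumberField k] [Field K] [NumberField K] [Algebra k K] (m : 𝓞 k)
    (t s : k) (θ : K) (l j : ℕ), l.Prime → 3 < l → Cub (m : k) t s θ →
    IsIntegral ℤ ((l : k) ^ j * t) →
    (discr K).natAbs ≤ 108 ^ finrank ℚ k * l ^ (3 * finrank ℚ k) * (Algebra.norm ℤ m).natAbs *
      (discr k).natAbs ^ 3

/-- NAB: the field `K` is not abelian. -/
def NabStmt : Prop :=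
  ∀ (k K : Type) [Field k] [NumberField k] [Field K] [NumberField K] [Algebra k K] (m : 𝓞 k)
    (t s : k) (θ : K), Cub (m : k) t s θ → (∀ x : k, x ^ 2 ≠ 3 * (m : k)) →
    ¬ IsAbelianGalois ℚ K

/-! ## Counting -/

/-- NSP: the integers of the cone in residue classes, upper bound. -/
def NspStmt : Prop :=
  ∀ (k : Type) [Field k] [NumberField k] (Φ : CFrame k), ∃ A : ℝ, 0 < A ∧
    ∀ I : Ideal (𝓞 k), I ≠ ⊥ → ∀ S : Set (𝓞 k ⧸ I), ∀ᶠ Z : ℝ in atTop,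
      ({m : 𝓞 k | Ideal.Quotient.mk I m ∈ S ∧ av (mixedEmbedding k (m : k)) ∈ Φ.F ∧
        nr (av (mixedEmbedding k (m : k))) ≤ Z}.ncard : ℝ) ≤
          A * ((S.ncard : ℝ) / (Ideal.absNorm I : ℝ)) * Z

/-- SQC: the residue classes `m` such that `-m` is not a nonzero square. -/
def SqcStmt : Prop :=
  ∀ (k : Type) [Field k] [NumberField k] (p : HeightOneSpectrum (𝓞 k)), (2 : 𝓞 k) ∉ p.asIdeal →
    2 * ((Ideal.Quotient.mk p.asIdeal ''
      {m : 𝓞 k | ¬ ∃ x : 𝓞 k, x ∉ p.asIdeal ∧ x ^ 2 + m ∈ p.asIdeal}).ncard : ℝ) ≤ np p + 1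

/-- KCR: at least `c Z` good `m` such that `-m` is a nonzero square modulo one of the primes
`q 0, ..., q (r - 1)`. -/
def KcrStmt : Prop :=
  ∀ (k : Type) [Field k] [NumberField k] (N : Set {w : InfinitePlace k // IsReal w})
    (q : ℕ → HeightOneSpectrum (𝓞 k)), Function.Injective q →
    (∀ i, (6 : 𝓞 k) ∉ (q i).asIdeal) →
    ∃ (r : ℕ) (c : ℝ), 0 < c ∧ ∀ᶠ Z : ℝ in atTop, ∃ S : Finset (𝓞 k), c * Z ≤ S.card ∧
      (∀ m ∈ S, AdmG k m ∧ Sgn N (mixedEmbedding k (m : k)) ∧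
        ((Algebra.norm ℤ m).natAbs : ℝ) ≤ Z ∧ (¬ ∃ g : Q4 (𝓞 k), GIrr g ∧ mm g = m) ∧
        ∃ i < r, ∃ x : 𝓞 k, x ∉ (q i).asIdeal ∧ x ^ 2 + m ∈ (q i).asIdeal) ∧
      (∀ m ∈ S, ∀ m' ∈ S, IsSquare ((m : k) * m') → m = m')

/-! ## Final statements -/

/-- TRO: totally real fields of degree `3 ^ (a + 1)`. -/
def TroStmt : Prop :=
  ∀ a : ℕ, ∃ c : ℝ, 0 < c ∧ ∀ᶠ X : ℝ in atTop,
    ∃ (I : Type) (_ : Fintype I) (K : I → Type) (_ : ∀ i, Field (K i))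
      (_ : ∀ i, NumberField (K i)),
      c * X ≤ Fintype.card I ∧ (∀ i i', Nonempty (K i ≃+* K i') → i = i') ∧
      ∀ i, nrRealPlaces (K i) = 3 ^ (a + 1) ∧ nrComplexPlaces (K i) = 0 ∧
        ((discr (K i)).natAbs : ℝ) ≤ X ∧ ¬ IsAbelianGalois ℚ (K i) ∧
        NoMu (K i) ∧ W3 (K i) ∧ Tower3 (K i)

/-- **TOWF**: all degrees `n = 2 ^ j * 3 ^ a > 1` and all signatures of degree `n`. -/
def TowfStmt : Prop :=
  ∀ j a r₁ r₂ : ℕ, 1 < 2 ^ j * 3 ^ a → r₁ + 2 * r₂ = 2 ^ j * 3 ^ a →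
    ∃ c : ℝ, 0 < c ∧ ∀ᶠ X : ℝ in atTop,
    ∃ (I : Type) (_ : Fintype I) (K : I → Type) (_ : ∀ i, Field (K i))
      (_ : ∀ i, NumberField (K i)),
      c * X ≤ Fintype.card I ∧ (∀ i i', Nonempty (K i ≃+* K i') → i = i') ∧
      ∀ i, nrRealPlaces (K i) = r₁ ∧ nrComplexPlaces (K i) = r₂ ∧
        ((discr (K i)).natAbs : ℝ) ≤ X ∧ (2 < r₁ + 2 * r₂ → ¬ IsAbelianGalois ℚ (K i)) ∧
        NoMu (K i) ∧ W3 (K i) ∧ Tower3 (K i)

end Pool.Agent.LeoT
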